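import Pool.Agent.helper46.T6L.SpecO

set_option autoImplicit false

namespace Pool.Agent.T6L

open Finset NumberField Pool.Agent.helper3.FT Pool.Agent.helper47.RA Pool.Agent.T5
open Pool.Agent.helper26.T5 (nn LEMB LPR LAW LP LPA HLN HPR HSQ HID HCL HGA)
open Pool.Agent.helper28.LT (rad)

theorem OLM_fac (S : Finset ℕ) (hS : ∀ p ∈ S, p.Prime) (g : ℕ → ℕ) (q : ℕ) :
    (∏ p ∈ S, p ^ g p).factorization q = if q ∈ S then g q else 0 := by
  rw [Nat.factorization_prod (fun p hp => pow_ne_zero _ (hS p hp).ne_zero), Finsupp.finsetSum_apply]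
  have h : ∀ p ∈ S, (p ^ g p).factorization q = if p = q then g q else 0 := by
    intro p hp
    rw [(hS p hp).factorization_pow, Finsupp.single_apply]
    split_ifs with h1
    · rw [h1]
    · rfl
  rw [Finset.sum_congr rfl h, Finset.sum_ite_eq' S q]

theorem OLM_ff {f b : ℕ} (hf : 1 ≤ f) (hb : 1 ≤ b) (hbf : ∀ p : ℕ, p.Prime → p ∣ b → p ∣ f) :
    (∏ p ∈ b.primeFactors, p ^ (b.factorization p - (2 * f.factorization p + 2))) * ff f b = b := by
  have hf0 : f ≠ 0 := by omega
  have hb0 : b ≠ 0 := by omega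
  have hr0 : rad f ≠ 0 := by
    unfold rad
    exact Finset.prod_ne_zero_iff.2 fun p hp => (Nat.prime_of_mem_primeFactors hp).ne_zero
  have hP0 : (∏ p ∈ b.primeFactors, p ^ (b.factorization p - (2 * f.factorization p + 2))) ≠ 0 :=
    Finset.prod_ne_zero_iff.2 fun p hp => pow_ne_zero _ (Nat.prime_of_mem_primeFactors hp).ne_zero
  have hfr : (f * rad f) ^ 2 ≠ 0 := pow_ne_zero _ (mul_ne_zero hf0 hr0)
  have hff0 : ff f b ≠ 0 := by
    unfold ff
    exact Nat.gcd_ne_zero_left hb0
  have hrad : ∀ p : ℕ, p ∈ f.primeFactors → (rad f).factorization p = 1 := by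
    intro p hp
    have h1 : rad f = ∏ p ∈ f.primeFactors, p ^ (fun _ : ℕ => 1) p := by
      unfold rad
      simp
    rw [h1, OLM_fac _ (fun p hp => Nat.prime_of_mem_primeFactors hp), if_pos hp]
  refine Nat.eq_of_factorization_eq (mul_ne_zero hP0 hff0) hb0 fun p => ?_
  rw [Nat.factorization_mul hP0 hff0, Finsupp.add_apply,
    OLM_fac _ (fun p hp => Nat.prime_of_mem_primeFactors hp)]
  unfold ff
  rw [Nat.factorization_gcd hb0 hfr, Finsupp.inf_apply, Nat.factorization_pow, Finsupp.smul_apply,
    Nat.factorization_mul hf0 hr0, Finsupp.add_apply]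
  split_ifs with h
  · have hpf : p ∈ f.primeFactors := by
      rw [Nat.mem_primeFactors]
      exact ⟨Nat.prime_of_mem_primeFactors h, hbf p (Nat.prime_of_mem_primeFactors h) (Nat.dvd_of_mem_primeFactors h), hf0⟩
    rw [hrad p hpf]
    simp only [smul_eq_mul]
    have : b.factorization p ⊓ (2 * (f.factorization p + 1)) = min (b.factorization p) (2 * (f.factorization p + 1)) := rfl
    rw [this]
    omega
  · have h0 : b.factorization p = 0 := by
      rw [← Finsupp.notMem_support_iff, Nat.support_factorization]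
      exact h
    rw [h0]
    simp

theorem OLM (hOPR : OPR_stmt) (hOPM : OPM_stmt) : OLM_stmt := by
  intro K _ _ Q f b A hf hb hbf hA hnd
  have hb0 : b ≠ 0 := by omega
  have hA0 : A ≠ ⊥ := by
    rintro rfl
    rw [Ideal.absNorm_bot] at hA
    exact pow_ne_zero 5 hb0 hA.symm
  have key : ∀ T : Finset ℕ, T ⊆ b.primeFactors → ∃ B A₀ : Ideal (𝓞 K), B ≠ ⊥ ∧ Prim B ∧ A = B ^ 5 * A₀ ∧
      Ideal.absNorm B = ∏ p ∈ T, p ^ (b.factorization p - (2 * f.factorization p + 2)) := by
    intro T
    induction T using Finset.induction_on with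
    | empty =>
      intro _
      refine ⟨⊤, A, top_ne_bot, ?_, ?_, ?_⟩
      · intro q hq hd
        have h1 := map_dvd (Ideal.absNorm (S := 𝓞 K)) hd
        rw [h96_norm_q Q q, Ideal.absNorm_top, Nat.dvd_one] at h1
        have h2 := hq.two_le
        have h3 : q = 1 := by
          rcases (Nat.pow_eq_one).1 h1 with h | h
          · exact h
          · omega
        omega
      · rw [← Ideal.one_eq_top, one_pow, one_mul]
      · rw [Ideal.absNorm_top, Finset.prod_empty]
    | insert q T hqT ih =>
      intro hT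
      obtain ⟨B, A₀, hB0, hBP, hBA, hBn⟩ := ih ((Finset.subset_insert q T).trans hT)
      have hqm : q ∈ b.primeFactors := hT (Finset.mem_insert_self q T)
      have hq := Nat.prime_of_mem_primeFactors hqm
      rcases Nat.eq_zero_or_pos (b.factorization q - (2 * f.factorization q + 2)) with hj | hj
      · refine ⟨B, A₀, hB0, hBP, hBA, ?_⟩
        rw [Finset.prod_insert hqT, hj, pow_zero, one_mul, hBn]
      · have hA₀0 : A₀ ≠ ⊥ := by
          rintro rfl
          rw [Ideal.mul_bot] at hBA
          exact hA0 hBA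
        have hcop : Nat.Coprime (q ^ (5 * b.factorization q)) (Ideal.absNorm B ^ 5) := by
          refine Nat.Coprime.pow _ _ ?_
          rw [hBn]
          refine Nat.Coprime.prod_right fun p hp => ?_
          refine Nat.Coprime.pow_right _ ?_
          rw [Nat.coprime_primes hq (Nat.prime_of_mem_primeFactors (hT (Finset.mem_insert_of_mem hp)))]
          rintro rfl
          exact hqT hp
        have hdvd : q ^ (5 * b.factorization q) ∣ Ideal.absNorm A₀ := by
          have h1 : q ^ (5 * b.factorization q) ∣ Ideal.absNorm B ^ 5 * Ideal.absNorm A₀ := by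
            rw [← map_pow, ← map_mul, ← hBA, hA, Nat.mul_comm 5, pow_mul]
            exact pow_dvd_pow_of_dvd (Nat.ordProj_dvd b q) 5
          exact hcop.dvd_of_dvd_mul_left h1
        have hnA : ¬ id' K (q ^ (5 * f.factorization q + 4 + 1)) ∣ A₀ := by
          intro h
          exact hnd q hq (h.trans (by rw [hBA]; exact dvd_mul_left _ _))
        obtain ⟨P, hP1, hP2, hP3⟩ := hOPR K Q A₀ q (5 * b.factorization q) (5 * f.factorization q + 4) hq hA₀0 hdvd hnA
        set j := b.factorization q - (2 * f.factorization q + 2) with hjd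
        have hx : 5 * b.factorization q - 2 * (5 * f.factorization q + 4) = 5 * j + 2 := by omega
        rw [hx] at hP1 hP2 hP3
        have hPn : Ideal.absNorm P = q := by
          rw [map_pow] at hP3
          exact Nat.pow_left_injective (by omega) hP3
        have hP0 : P ≠ ⊥ := by
          rintro rfl
          rw [Ideal.absNorm_bot] at hPn
          exact hq.ne_zero hPn.symm
        have hdiv : P ^ j ∣ P ^ (5 * j + 2) := pow_dvd_pow P (by omega)
        have hPj : Prim (P ^ j) := fun r hr h => hP2 r hr (h.trans hdiv)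
        have hdiv5 : (P ^ j) ^ 5 ∣ A₀ := by
          rw [← pow_mul]
          exact (pow_dvd_pow P (by omega)).trans hP1
        obtain ⟨A₁, hA₁⟩ := hdiv5
        refine ⟨B * P ^ j, A₁, ?_, ?_, ?_, ?_⟩
        · rw [Ne, Ideal.mul_eq_bot]
          rintro (h | h)
          · exact hB0 h
          · exact pow_ne_zero j hP0 h
        · refine hOPM K B (P ^ j) hB0 (pow_ne_zero j hP0) hBP hPj ?_
          rw [map_pow, hPn, hBn]
          refine Nat.Coprime.prod_left fun p hp => ?_
          refine Nat.Coprime.pow _ _ ?_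
          rw [Nat.coprime_primes (Nat.prime_of_mem_primeFactors (hT (Finset.mem_insert_of_mem hp))) hq]
          rintro rfl
          exact hqT hp
        · rw [hBA, hA₁, mul_pow, mul_assoc]
        · rw [map_mul, map_pow, hPn, hBn, Finset.prod_insert hqT, mul_comm]
  obtain ⟨B, A₀, hB0, hBP, hBA, hBn⟩ := key b.primeFactors (Finset.Subset.refl _)
  have hfin : Ideal.absNorm B * ff f b = b := by
    rw [hBn]
    exact OLM_ff hf hb hbf
  refine ⟨B, A₀, hB0, hBP, hBA, hfin, ?_⟩
  have h1 : Ideal.absNorm B ^ 5 * Ideal.absNorm A₀ = Ideal.absNorm B ^ 5 * ff f b ^ 5 := by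
    rw [← map_pow, ← map_mul, ← hBA, hA, map_pow, ← mul_pow, hfin]
  have h2 : Ideal.absNorm B ≠ 0 := by
    intro h
    rw [h, zero_mul] at hfin
    exact hb0 hfin.symm
  exact Nat.eq_of_mul_eq_mul_left (Nat.pos_of_ne_zero (pow_ne_zero 5 h2)) h1

end Pool.Agent.T6L
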